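import Pool.Agent.W334.ConeInst

set_option autoImplicit false

/-!
# A Hausdorff paratopological group in ZFC which is 2-pseudocompact, countably pracompact and Baire
but not a topological group

The example is the group of all pairs `(x, l)` where `l` is an element of the ordered group of
finitely supported integer valued functions on `ω₁` (the largest index dominates), and
`x : ω₁ → C`, `C = ∏_{ω₁} ℤ_2`, equals the image of `l` in `C` outside a countable set.
A neighbourhood of `(x, l)` is given by a neighbourhood of `x` in the compact product and the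
condition that the second coordinate is at least `l`.
-/

namespace Pool.Agent.Results.MP_3a0237_al.ZFCExample

open Topology

/-- `X` is countably pracompact: there is a dense set `D` such that every infinite `B ⊆ D` has an
accumulation point in `X`, i.e. a point all of whose neighbourhoods contain infinitely many points
of `B`. -/
def CountablyPracompact (X : Type) [TopologicalSpace X] : Prop :=
  ∃ D : Set X, Dense D ∧ ∀ B : Set X, B ⊆ D → B.Infinite →
    ∃ x : X, ∀ U ∈ 𝓝 x, (U ∩ B).Infinite

/-- `X` is pseudocompact: every locally finite family of nonempty open subsets is finite. -/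
def Pseudocompact (X : Type) [TopologicalSpace X] : Prop :=
  ∀ (ι : Type) (U : ι → Set X), (∀ i, IsOpen (U i)) → (∀ i, (U i).Nonempty) →
    LocallyFinite U → Finite ι

/-- `G` is 2-pseudocompact: for every non-increasing sequence of nonempty open sets the closures of
their inverses have a common point. -/
def TwoPseudocompact (G : Type) [Group G] [TopologicalSpace G] : Prop :=
  ∀ U : ℕ → Set G, (∀ n, IsOpen (U n)) → (∀ n, (U n).Nonempty) → (∀ n, U (n + 1) ⊆ U n) →
    (⋂ n, closure ((U n)⁻¹)).Nonempty

/-- countably pracompact spaces are pseudocompact -/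
theorem CountablyPracompact.pseudocompact {X : Type} [TopologicalSpace X]
    (h : CountablyPracompact X) : Pseudocompact X := by
  obtain ⟨D, hD, h⟩ := h
  intro ι U hUo hUne hlf
  by_contra hinf
  rw [not_finite_iff_infinite] at hinf
  have hd : ∀ i, ∃ d, d ∈ U i ∧ d ∈ D := by
    intro i
    obtain ⟨d, hd1, hd2⟩ := hD.inter_open_nonempty (U i) (hUo i) (hUne i)
    exact ⟨d, hd1, hd2⟩
  choose d hdU hdD using hd
  have hBinf : (Set.range d).Infinite := by
    intro hfin
    have : ∃ x ∈ Set.range d, (d ⁻¹' {x}).Infinite := by
      by_contra hcon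
      push Not at hcon
      have hu : (Set.univ : Set ι) = ⋃ x ∈ Set.range d, d ⁻¹' {x} := by
        ext i; simp
      have : (Set.univ : Set ι).Finite := by
        rw [hu]
        exact hfin.biUnion fun x hx => by simpa using hcon x hx
      exact Set.infinite_univ this
    obtain ⟨x, _, hx⟩ := this
    obtain ⟨V, hV, hVfin⟩ := hlf x
    apply hx
    refine hVfin.subset ?_
    intro i hi
    have : d i = x := hi
    exact ⟨x, by rw [← this]; exact hdU i, mem_of_mem_nhds hV⟩
  obtain ⟨x, hx⟩ := h (Set.range d) (by rintro _ ⟨i, rfl⟩; exact hdD i) hBinf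
  obtain ⟨V, hV, hVfin⟩ := hlf x
  apply hx V hV
  refine (hVfin.image d).subset ?_
  rintro _ ⟨hv, i, rfl⟩
  exact ⟨i, ⟨d i, hdU i, hv⟩, rfl⟩

/-- There is (in ZFC) an abelian Hausdorff paratopological group which is not a topological group
and which is countably pracompact, pseudocompact, Baire and 2-pseudocompact. It satisfies the
conditions (2), (3) and (4) of the question. -/
theorem result : ∃ (G : Type) (_ : CommGroup G) (_ : TopologicalSpace G),
    ContinuousMul G ∧ ¬ IsTopologicalGroup G ∧ T2Space G ∧ CountablyPracompact G ∧
      Pseudocompact G ∧ BaireSpace G ∧ TwoPseudocompact G := by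
  have hc : CountablyPracompact (Multiplicative Pool.Agent.W334.Cone.GG) :=
    Pool.Agent.W334.Cone.gg_cprac
  refine ⟨Multiplicative Pool.Agent.W334.Cone.GG, inferInstance, inferInstance, inferInstance,
    ?_, Pool.Agent.W334.Cone.gg_t2, hc, hc.pseudocompact, Pool.Agent.W334.Cone.gg_baire,
    Pool.Agent.W334.Cone.gg_two⟩
  intro h
  apply Pool.Agent.W334.Cone.gg_not
  exact ⟨h.continuous_inv⟩

end Pool.Agent.Results.MP_3a0237_al.ZFCExample
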